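import Pool.Agent.helper80.EN.Spec

/-!
# Finite groups are linear (row EN/LFI)
-/

set_option autoImplicit false

namespace Pool.Agent.helper80.EN

universe u

theorem LFI : LFI_stmt.{u} := by
  intro G _ hG
  classical
  obtain ⟨n, ⟨e⟩⟩ := Finite.exists_equiv_fin G
  let m : G →* Matrix (Fin n) (Fin n) (ULift.{u} ℚ) :=
    { toFun := fun g => Matrix.of fun i j => if i = e (g * e.symm j) then 1 else 0
      map_one' := by
        ext i j
        simp [Matrix.one_apply]
      map_mul' := by
        intro g h
        apply Matrix.ext
        intro i j
        rw [Matrix.mul_apply, Finset.sum_eq_single (e (h * e.symm j))]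
        · simp [mul_assoc]
        · intro k _ hk
          simp [hk]
        · intro hk
          exact absurd (Finset.mem_univ _) hk }
  refine InL.linear (ULift.{u} ℚ) n m.toHomUnits ?_
  intro g h hgh
  have h1 : m g = m h := by
    have := congrArg Units.val hgh
    simpa using this
  have h2 := congrFun (congrFun h1 (e g)) (e 1)
  by_contra hne
  have h3 : ¬ e g = e h := fun h4 => hne (e.injective h4)
  simp [m, h3] at h2

end Pool.Agent.helper80.EN
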